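import Pool.Agent.Helper95.LN.Stmts

/-!
# Row EID: Green's identity for the smeared potentials
-/

set_option autoImplicit false

namespace Pool.Agent.Helper84.LN

open MeasureTheory Filter Topology Pool.Agent.Helper95.PW Pool.Agent.Helper95.LN

/-! ### lengths -/

theorem eid_norm_le (v : R3) : ‖v‖ ≤ nr v := by
  have h : ∀ i, ‖v i‖ ≤ nr v := by
    intro i
    rw [Real.norm_eq_abs]
    unfold nr
    refine Real.abs_le_sqrt ?_
    fin_cases i <;> simp <;> nlinarith [sq_nonneg (v 0), sq_nonneg (v 1), sq_nonneg (v 2)]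
  exact (pi_norm_le_iff_of_nonneg ((norm_nonneg _).trans (h 0))).2 h

theorem eid_nr0 {v : R3} (h : nr v = 0) : v = 0 := by
  have := eid_norm_le v
  rw [h] at this
  exact norm_eq_zero.1 (le_antisymm this (norm_nonneg _))

theorem eid_shift (w x : R3) : 1 + ‖w‖ ≤ (1 + ‖x‖) * (1 + ‖w - x‖) := by
  have h : ‖w‖ ≤ ‖x‖ + ‖w - x‖ := by
    calc ‖w‖ = ‖x + (w - x)‖ := by rw [add_sub_cancel]
      _ ≤ ‖x‖ + ‖w - x‖ := norm_add_le _ _
  nlinarith [norm_nonneg x, norm_nonneg (w - x)]

/-- a function with `‖v‖ |f v| ≤ 1`, `|f v| ≤ c` -/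
theorem eid_b1 (c t : ℝ) (w x : R3) (h0 : |t| ≤ c) (h1 : ‖w - x‖ * |t| ≤ 1) :
    |t| ≤ (c + 1) * (1 + ‖x‖) / (1 + ‖w‖) := by
  have hw : 0 < 1 + ‖w‖ := by positivity
  rw [le_div_iff₀ hw]
  have h := eid_shift w x
  calc |t| * (1 + ‖w‖) ≤ |t| * ((1 + ‖x‖) * (1 + ‖w - x‖)) :=
        mul_le_mul_of_nonneg_left h (abs_nonneg _)
    _ = (1 + ‖x‖) * (|t| + ‖w - x‖ * |t|) := by ring
    _ ≤ (1 + ‖x‖) * (c + 1) := mul_le_mul_of_nonneg_left (add_le_add h0 h1) (by positivity)
    _ = (c + 1) * (1 + ‖x‖) := by ring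

theorem eid_b2 (c t : ℝ) (w x : R3) (h0 : |t| ≤ c) (h1 : ‖w - x‖ ^ 2 * |t| ≤ 1) :
    |t| ≤ (2 * c + 2) * (1 + ‖x‖) ^ 2 / (1 + ‖w‖) ^ 2 := by
  have hw : 0 < (1 + ‖w‖) ^ 2 := by positivity
  rw [le_div_iff₀ hw]
  have h := eid_shift w x
  have h2 : (1 + ‖w‖) ^ 2 ≤ ((1 + ‖x‖) * (1 + ‖w - x‖)) ^ 2 :=
    pow_le_pow_left₀ (by positivity) h 2
  have h3 : (1 + ‖w - x‖) ^ 2 ≤ 2 + 2 * ‖w - x‖ ^ 2 := by nlinarith [sq_nonneg (1 - ‖w - x‖)]
  calc |t| * (1 + ‖w‖) ^ 2 ≤ |t| * ((1 + ‖x‖) * (1 + ‖w - x‖)) ^ 2 :=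
        mul_le_mul_of_nonneg_left h2 (abs_nonneg _)
    _ = (1 + ‖x‖) ^ 2 * (|t| * (1 + ‖w - x‖) ^ 2) := by ring
    _ ≤ (1 + ‖x‖) ^ 2 * (|t| * (2 + 2 * ‖w - x‖ ^ 2)) :=
        mul_le_mul_of_nonneg_left (mul_le_mul_of_nonneg_left h3 (abs_nonneg _)) (by positivity)
    _ = (1 + ‖x‖) ^ 2 * (2 * |t| + 2 * (‖w - x‖ ^ 2 * |t|)) := by ring
    _ ≤ (1 + ‖x‖) ^ 2 * (2 * c + 2 * 1) := by
        refine mul_le_mul_of_nonneg_left ?_ (by positivity)
        linarith
    _ = (2 * c + 2) * (1 + ‖x‖) ^ 2 := by ring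

theorem eid_int4 (C : ℝ) : Integrable fun w : R3 => C / (1 + ‖w‖) ^ 4 := by
  have h : Integrable fun w : R3 => (1 + ‖w‖) ^ (-(4 : ℝ)) := by
    refine integrable_one_add_norm ?_
    simp
    norm_num
  refine (h.const_mul C).congr (Eventually.of_forall fun w => ?_)
  have hw : 0 ≤ 1 + ‖w‖ := by positivity
  change C * (1 + ‖w‖) ^ (-(4 : ℝ)) = C / (1 + ‖w‖) ^ 4
  rw [Real.rpow_neg hw, div_eq_mul_inv]
  norm_cast

/-! ### derivatives -/

theorem eid_pd_sub (i : Fin 3) (g : R3 → ℝ) (c w : R3) :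
    pd i (fun w => g (w - c)) w = pd i g (w - c) := by
  unfold pd
  rw [fderiv_comp_sub]

theorem eid_pd_mul (i : Fin 3) {f g : R3 → ℝ} (hf : ContDiff ℝ (⊤ : ℕ∞) f)
    (hg : ContDiff ℝ (⊤ : ℕ∞) g) (w : R3) :
    pd i (fun w => f w * g w) w = pd i f w * g w + f w * pd i g w := by
  unfold pd
  have h := ((hf.differentiable (by simp)) w).hasFDerivAt.mul
    ((hg.differentiable (by simp)) w).hasFDerivAt
  have h2 : fderiv ℝ (fun w => f w * g w) w = f w • fderiv ℝ g w + g w • fderiv ℝ f w := h.fderiv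
  rw [h2]
  simp only [_root_.add_apply, _root_.smul_apply, smul_eq_mul]
  ring

theorem eid_cd {g : R3 → ℝ} (i : Fin 3) (hg : ContDiff ℝ (⊤ : ℕ∞) g) :
    ContDiff ℝ (⊤ : ℕ∞) (pd i g) := by
  have h : ContDiff ℝ (⊤ : ℕ∞) (fderiv ℝ g) := hg.fderiv_right (by exact_mod_cast le_top)
  exact h.clm_apply contDiff_const

theorem eid_cs {g : R3 → ℝ} (i : Fin 3) (hg : HasCompactSupport g) :
    HasCompactSupport (pd i g) := by
  have h := hg.fderiv (𝕜 := ℝ)
  exact h.comp_left (g := fun L : (R3 →L[ℝ] ℝ) => L (Pi.single i 1)) (by simp)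

theorem eid_ibp (i : Fin 3) {F g : R3 → ℝ} (hF : ContDiff ℝ (⊤ : ℕ∞) F) (hFc : HasCompactSupport F)
    (hg : ContDiff ℝ (⊤ : ℕ∞) g) : ∫ w, pd i F w * g w = -∫ w, F w * pd i g w := by
  have i1 : Integrable (fun w => pd i F w * g w) :=
    ((eid_cd i hF).continuous.mul hg.continuous).integrable_of_hasCompactSupport
      (eid_cs i hFc).mul_right
  have i2 : Integrable (fun w => F w * pd i g w) :=
    (hF.continuous.mul (eid_cd i hg).continuous).integrable_of_hasCompactSupport hFc.mul_right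
  have i3 : Integrable (fun w => F w * g w) :=
    (hF.continuous.mul hg.continuous).integrable_of_hasCompactSupport hFc.mul_right
  have h := integral_mul_fderiv_eq_neg_fderiv_mul_of_integrable (μ := volume)
    (v := (Pi.single i 1 : R3)) i1 i2 i3
    (fun w _ => (hF.differentiable (by simp)) w) (fun w _ => (hg.differentiable (by simp)) w)
  have h2 : ∫ w, F w * pd i g w = -∫ w, pd i F w * g w := h
  rw [h2, neg_neg]

/-! ### cut off -/

theorem eid_cut : ∃ (χ : ℕ → R3 → ℝ) (C : ℝ), 0 ≤ C ∧ ∀ N, ContDiff ℝ (⊤ : ℕ∞) (χ N) ∧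
    HasCompactSupport (χ N) ∧ (∀ w, |χ N w| ≤ 1) ∧
    (∀ i w, |pd i (χ N) w| ≤ C / (1 + ‖w‖)) ∧ (∀ i w, |pd i (χ N) w| ≤ C / ((N : ℝ) + 1)) ∧
    ∀ w, ‖w‖ ≤ (N : ℝ) + 1 → χ N w = 1 := by
  let f : ContDiffBump (0 : R3) := ⟨1, 2, one_pos, one_lt_two⟩
  have hf : ContDiff ℝ (⊤ : ℕ∞) f := f.contDiff
  have hfc : HasCompactSupport f := f.hasCompactSupport
  have hbd : ∃ C : ℝ, ∀ i w, |pd i f w| ≤ C := by
    have h : ∀ i, ∃ C : ℝ, ∀ w, |pd i f w| ≤ C := by
      intro i
      obtain ⟨C, hC⟩ := (eid_cs i hfc).exists_bound_of_continuous (eid_cd i hf).continuous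
      exact ⟨C, hC⟩
    choose C hC using h
    refine ⟨∑ i, |C i|, fun i w => (hC i w).trans ((le_abs_self _).trans ?_)⟩
    exact Finset.single_le_sum (f := fun i => |C i|) (fun _ _ => abs_nonneg _) (Finset.mem_univ i)
  obtain ⟨C, hC⟩ := hbd
  have hC0 : 0 ≤ C := (abs_nonneg _).trans (hC 0 0)
  have hz : ∀ i w, 2 < ‖w‖ → pd i f w = 0 := by
    intro i w hw
    have h1 : w ∉ tsupport f := by
      rw [f.tsupport_eq]
      simp only [Metric.mem_closedBall, dist_zero_right, not_le]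
      exact hw
    have h2 : fderiv ℝ f w = 0 := by
      by_contra h
      exact h1 (support_fderiv_subset ℝ h)
    unfold pd
    rw [h2]
    rfl
  let s : ℕ → ℝ := fun N => ((N : ℝ) + 1)⁻¹
  have hs : ∀ N, 0 < s N := fun N => by positivity
  have hpd : ∀ N i w, pd i (fun w => f (s N • w)) w = s N * pd i f (s N • w) := by
    intro N i w
    have h1 : HasFDerivAt (fun w : R3 => f (s N • w))
        ((fderiv ℝ f (s N • w)).comp (s N • ContinuousLinearMap.id ℝ R3)) w := by
      have h2 : HasFDerivAt (fun w : R3 => s N • w) (s N • ContinuousLinearMap.id ℝ R3) w :=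
        (hasFDerivAt_id w).const_smul (s N)
      exact ((hf.differentiable (by simp)) (s N • w)).hasFDerivAt.comp w h2
    unfold pd
    rw [h1.fderiv]
    simp
  refine ⟨fun N w => f (s N • w), 3 * C, by positivity, fun N => ⟨?_, ?_, ?_, ?_, ?_, ?_⟩⟩
  · exact hf.comp (contDiff_const_smul _)
  · exact hfc.comp_smul (hs N).ne'
  · intro w
    rw [abs_of_nonneg f.nonneg]
    exact f.le_one
  · intro i w
    change |pd i (fun w => f (s N • w)) w| ≤ _
    rw [hpd]
    have hw : 0 < 1 + ‖w‖ := by positivity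
    by_cases h : 2 < ‖s N • w‖
    · rw [hz i _ h, mul_zero, abs_zero]
      positivity
    · rw [not_lt, norm_smul, Real.norm_eq_abs, abs_of_pos (hs N)] at h
      rw [abs_mul, abs_of_pos (hs N), le_div_iff₀ hw]
      have h3 : s N ≤ 1 := by
        refine inv_le_one_of_one_le₀ ?_
        have : (0 : ℝ) ≤ N := Nat.cast_nonneg N
        linarith
      calc s N * |pd i f (s N • w)| * (1 + ‖w‖) = (s N + s N * ‖w‖) * |pd i f (s N • w)| := by ring
        _ ≤ (1 + 2) * C := by
          refine mul_le_mul (add_le_add h3 h) (hC i _) (abs_nonneg _) (by norm_num)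
        _ = 3 * C := by ring
  · intro i w
    change |pd i (fun w => f (s N • w)) w| ≤ _
    rw [hpd, abs_mul, abs_of_pos (hs N), div_eq_inv_mul]
    refine mul_le_mul_of_nonneg_left ((hC i _).trans ?_) (hs N).le
    linarith
  · intro w hw
    change f (s N • w) = 1
    refine f.one_of_mem_closedBall ?_
    rw [mem_closedBall_zero_iff, norm_smul, Real.norm_eq_abs, abs_of_pos (hs N)]
    change s N * ‖w‖ ≤ 1
    have hN : (0 : ℝ) < (N : ℝ) + 1 := by positivity
    calc s N * ‖w‖ ≤ s N * ((N : ℝ) + 1) := mul_le_mul_of_nonneg_left hw (hs N).le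
      _ = 1 := inv_mul_cancel₀ hN.ne'

/-! ### the row -/

theorem EID (h1 : ST_PHA) (h2 : ST_PHB) (h3 : ST_PHC) : ST_EID := by
  intro a x y ha
  obtain ⟨sm, -, ple, p02, -⟩ := h1 a ha
  obtain ⟨hlap, hd4, hdr, -⟩ := h2 a ha
  obtain ⟨-, -, -, het⟩ := h3
  obtain ⟨ets, et0, etz, -, -, -⟩ := het a ha
  -- decay
  have dec0 : ∀ c w : R3, |ph a (w - c)| ≤ (2 / a + 1) * (1 + ‖c‖) / (1 + ‖w‖) := by
    intro c w
    refine eid_b1 _ _ w c ?_ ?_
    · rw [abs_of_nonneg (p02 _).1]
      exact (p02 _).2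
    · rw [abs_of_nonneg (p02 _).1]
      by_cases h : nr (w - c) = 0
      · rw [eid_nr0 h, norm_zero, zero_mul]
        exact zero_le_one
      · have hp : 0 < nr (w - c) := lt_of_le_of_ne (Real.sqrt_nonneg _) (Ne.symm h)
        calc ‖w - c‖ * ph a (w - c) ≤ nr (w - c) * (1 / nr (w - c)) :=
              mul_le_mul (eid_norm_le _) (ple _ h) (p02 _).1 hp.le
          _ = 1 := by field_simp
  have dec1 : ∀ (i : Fin 3) (c w : R3), |pd i (ph a) (w - c)| ≤
      (2 * (4 / a ^ 2) + 2) * (1 + ‖c‖) ^ 2 / (1 + ‖w‖) ^ 2 := by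
    intro i c w
    refine eid_b2 _ _ w c (hd4 i _) ?_
    by_cases h : nr (w - c) = 0
    · rw [eid_nr0 h, norm_zero]
      norm_num
    · have hp : 0 < nr (w - c) := lt_of_le_of_ne (Real.sqrt_nonneg _) (Ne.symm h)
      calc ‖w - c‖ ^ 2 * |pd i (ph a) (w - c)| ≤ nr (w - c) ^ 2 * (1 / nr (w - c) ^ 2) :=
            mul_le_mul (pow_le_pow_left₀ (norm_nonneg _) (eid_norm_le _) 2) (hdr i _ h)
              (abs_nonneg _) (by positivity)
        _ = 1 := by field_simp
  set A0 : ℝ := (2 / a + 1) * (1 + ‖x‖) with hA0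
  set A1 : ℝ := (2 * (4 / a ^ 2) + 2) * (1 + ‖x‖) ^ 2 with hA1
  set B1 : ℝ := (2 * (4 / a ^ 2) + 2) * (1 + ‖y‖) ^ 2 with hB1
  have hA0p : 0 ≤ A0 := by positivity
  have hA1p : 0 ≤ A1 := by positivity
  have hB1p : 0 ≤ B1 := by positivity
  have smx : ContDiff ℝ (⊤ : ℕ∞) fun w => ph a (w - x) := sm.comp (contDiff_id.sub contDiff_const)
  have dsm : ∀ (i : Fin 3) (c : R3), ContDiff ℝ (⊤ : ℕ∞) fun w => pd i (ph a) (w - c) :=
    fun i c => (eid_cd i sm).comp (contDiff_id.sub contDiff_const)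
  have etc : Continuous fun w => et a (w - y) :=
    ets.continuous.comp (continuous_id.sub continuous_const)
  -- integrability of the product of gradients
  have hgc : Continuous fun w => ∑ i, pd i (ph a) (w - x) * pd i (ph a) (w - y) :=
    continuous_finsetSum _ fun i _ => (dsm i x).continuous.mul (dsm i y).continuous
  have hgb : ∀ w : R3, ∀ i : Fin 3, |pd i (ph a) (w - x) * pd i (ph a) (w - y)| ≤
      A1 * B1 / (1 + ‖w‖) ^ 4 := by
    intro w i
    rw [abs_mul]
    calc |pd i (ph a) (w - x)| * |pd i (ph a) (w - y)|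
        ≤ A1 / (1 + ‖w‖) ^ 2 * (B1 / (1 + ‖w‖) ^ 2) :=
          mul_le_mul (dec1 i x w) (dec1 i y w) (abs_nonneg _) (by positivity)
      _ = A1 * B1 / (1 + ‖w‖) ^ 4 := by
          field_simp
  have hint : Integrable fun w => ∑ i, pd i (ph a) (w - x) * pd i (ph a) (w - y) := by
    refine integrable_finsetSum _ fun i _ => ?_
    exact (eid_int4 (A1 * B1)).mono'
      ((dsm i x).continuous.mul (dsm i y).continuous).aestronglyMeasurable
      (Eventually.of_forall fun w => hgb w i)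
  refine ⟨hint, ?_⟩
  obtain ⟨χ, C, hC0, hχ⟩ := eid_cut
  -- the identity with cut off
  have hN : ∀ N, ∫ w, ∑ i, (pd i (χ N) w * ph a (w - x) + χ N w * pd i (ph a) (w - x)) *
      pd i (ph a) (w - y) = ∫ w, χ N w * ph a (w - x) * et a (w - y) := by
    intro N
    obtain ⟨c1, c2, -, -, -, -⟩ := hχ N
    have Fs : ContDiff ℝ (⊤ : ℕ∞) fun w => χ N w * ph a (w - x) := c1.mul smx
    have Fc : HasCompactSupport fun w => χ N w * ph a (w - x) := c2.mul_right
    have e1 : ∀ i w, pd i (fun w => χ N w * ph a (w - x)) w =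
        pd i (χ N) w * ph a (w - x) + χ N w * pd i (ph a) (w - x) := by
      intro i w
      rw [eid_pd_mul i c1 smx, eid_pd_sub]
    have e2 : ∀ i, ∫ w, (pd i (χ N) w * ph a (w - x) + χ N w * pd i (ph a) (w - x)) *
        pd i (ph a) (w - y) = -∫ w, χ N w * ph a (w - x) * pd i (pd i (ph a)) (w - y) := by
      intro i
      have h := eid_ibp i Fs Fc (dsm i y)
      simp only [e1, eid_pd_sub] at h
      exact h
    have j1 : ∀ i, Integrable fun w => (pd i (χ N) w * ph a (w - x) +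
        χ N w * pd i (ph a) (w - x)) * pd i (ph a) (w - y) := by
      intro i
      have h : Integrable fun w => pd i (fun w => χ N w * ph a (w - x)) w *
          pd i (ph a) (w - y) := ((eid_cd i Fs).continuous.mul
        (dsm i y).continuous).integrable_of_hasCompactSupport (eid_cs i Fc).mul_right
      simp only [e1] at h
      exact h
    have j2 : ∀ i, Integrable fun w => χ N w * ph a (w - x) * pd i (pd i (ph a)) (w - y) := by
      intro i
      exact (Fs.continuous.mul ((eid_cd i (eid_cd i sm)).continuous.comp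
        (continuous_id.sub continuous_const))).integrable_of_hasCompactSupport Fc.mul_right
    rw [integral_finsetSum _ fun i _ => j1 i, Finset.sum_congr rfl fun i _ => e2 i,
      Finset.sum_neg_distrib, ← integral_finsetSum _ fun i _ => j2 i, ← integral_neg]
    congr 1
    funext w
    rw [← Finset.mul_sum]
    have h := hlap (w - y)
    unfold lap at h
    rw [h]
    ring
  -- limits
  have hL : Tendsto (fun N => ∫ w, ∑ i, (pd i (χ N) w * ph a (w - x) +
      χ N w * pd i (ph a) (w - x)) * pd i (ph a) (w - y)) atTop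
      (𝓝 (∫ w, ∑ i, pd i (ph a) (w - x) * pd i (ph a) (w - y))) := by
    refine tendsto_integral_of_dominated_convergence
      (fun w => 3 * ((C * A0 + A1) * B1) / (1 + ‖w‖) ^ 4) (fun N => ?_) (eid_int4 _) (fun N => ?_)
      (Eventually.of_forall fun w => ?_)
    · obtain ⟨c1, -, -, -, -, -⟩ := hχ N
      exact (continuous_finsetSum _ fun i _ => (((eid_cd i c1).continuous.mul
        smx.continuous).add (c1.continuous.mul (dsm i x).continuous)).mul
          (dsm i y).continuous).aestronglyMeasurable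
    · obtain ⟨-, -, c3, c4, -, -⟩ := hχ N
      refine Eventually.of_forall fun w => ?_
      rw [Real.norm_eq_abs]
      have hw : 0 < 1 + ‖w‖ := by positivity
      have hi : ∀ i : Fin 3, |(pd i (χ N) w * ph a (w - x) + χ N w * pd i (ph a) (w - x)) *
          pd i (ph a) (w - y)| ≤ (C * A0 + A1) * B1 / (1 + ‖w‖) ^ 4 := by
        intro i
        rw [abs_mul]
        have k1 : |pd i (χ N) w * ph a (w - x)| ≤ C * A0 / (1 + ‖w‖) ^ 2 := by
          rw [abs_mul]
          calc |pd i (χ N) w| * |ph a (w - x)| ≤ C / (1 + ‖w‖) * (A0 / (1 + ‖w‖)) :=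
                mul_le_mul (c4 i w) (dec0 x w) (abs_nonneg _) (by positivity)
            _ = C * A0 / (1 + ‖w‖) ^ 2 := by field_simp
        have k2 : |χ N w * pd i (ph a) (w - x)| ≤ A1 / (1 + ‖w‖) ^ 2 := by
          rw [abs_mul]
          calc |χ N w| * |pd i (ph a) (w - x)| ≤ 1 * (A1 / (1 + ‖w‖) ^ 2) :=
                mul_le_mul (c3 w) (dec1 i x w) (abs_nonneg _) zero_le_one
            _ = A1 / (1 + ‖w‖) ^ 2 := one_mul _
        have k3 : |pd i (χ N) w * ph a (w - x) + χ N w * pd i (ph a) (w - x)| ≤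
            (C * A0 + A1) / (1 + ‖w‖) ^ 2 := by
          rw [add_div]
          exact (abs_add_le _ _).trans (add_le_add k1 k2)
        calc |pd i (χ N) w * ph a (w - x) + χ N w * pd i (ph a) (w - x)| * |pd i (ph a) (w - y)|
            ≤ (C * A0 + A1) / (1 + ‖w‖) ^ 2 * (B1 / (1 + ‖w‖) ^ 2) :=
              mul_le_mul k3 (dec1 i y w) (abs_nonneg _) (by positivity)
          _ = (C * A0 + A1) * B1 / (1 + ‖w‖) ^ 4 := by field_simp
      refine (Finset.abs_sum_le_sum_abs _ _).trans ((Finset.sum_le_sum fun i _ => hi i).trans ?_)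
      rw [Finset.sum_const, Finset.card_univ, Fintype.card_fin, nsmul_eq_mul]
      refine le_of_eq ?_
      push_cast
      ring
    · refine tendsto_finsetSum _ fun i _ => ?_
      have t1 : Tendsto (fun N => pd i (χ N) w) atTop (𝓝 0) := by
        have t0 : Tendsto (fun N : ℕ => C / ((N : ℝ) + 1)) atTop (𝓝 0) := by
          have := tendsto_one_div_add_atTop_nhds_zero_nat (𝕜 := ℝ).const_mul C
          simpa [div_eq_mul_inv] using this
        exact squeeze_zero_norm (fun N => (hχ N).2.2.2.2.1 i w) t0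
      have t2 : Tendsto (fun N => χ N w) atTop (𝓝 1) := by
        refine tendsto_const_nhds.congr' ?_
        obtain ⟨N0, hN0⟩ := exists_nat_ge ‖w‖
        filter_upwards [eventually_ge_atTop N0] with N hNN
        refine ((hχ N).2.2.2.2.2 w ?_).symm
        have : (N0 : ℝ) ≤ N := by exact_mod_cast hNN
        linarith
      have t3 := ((t1.mul_const (ph a (w - x))).add
        (t2.mul_const (pd i (ph a) (w - x)))).mul_const (pd i (ph a) (w - y))
      rw [zero_mul, zero_add, one_mul] at t3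
      exact t3
  have etcs : HasCompactSupport fun w => et a (w - y) := by
    refine HasCompactSupport.intro (isCompact_closedBall y a) fun w hw => ?_
    rw [Metric.mem_closedBall, not_le, dist_eq_norm] at hw
    exact etz _ (hw.le.trans (eid_norm_le _))
  have hR : Tendsto (fun N => ∫ w, χ N w * ph a (w - x) * et a (w - y)) atTop
      (𝓝 (∫ w, ph a (w - x) * et a (w - y))) := by
    refine tendsto_integral_of_dominated_convergence
      (fun w => |ph a (w - x) * et a (w - y)|) (fun N => ?_) ?_ (fun N => ?_)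
      (Eventually.of_forall fun w => ?_)
    · exact (((hχ N).1.continuous.mul smx.continuous).mul etc).aestronglyMeasurable
    · exact ((smx.continuous.mul etc).integrable_of_hasCompactSupport etcs.mul_left).abs
    · refine Eventually.of_forall fun w => ?_
      rw [Real.norm_eq_abs, mul_assoc, abs_mul]
      calc |χ N w| * |ph a (w - x) * et a (w - y)| ≤ 1 * |ph a (w - x) * et a (w - y)| :=
            mul_le_mul_of_nonneg_right ((hχ N).2.2.1 w) (abs_nonneg _)
        _ = |ph a (w - x) * et a (w - y)| := one_mul _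
    · have t2 : Tendsto (fun N => χ N w) atTop (𝓝 1) := by
        refine tendsto_const_nhds.congr' ?_
        obtain ⟨N0, hN0⟩ := exists_nat_ge ‖w‖
        filter_upwards [eventually_ge_atTop N0] with N hNN
        refine ((hχ N).2.2.2.2.2 w ?_).symm
        have : (N0 : ℝ) ≤ N := by exact_mod_cast hNN
        linarith
      have t3 := (t2.mul_const (ph a (w - x))).mul_const (et a (w - y))
      rw [one_mul] at t3
      exact t3
  simp only [hN] at hL
  exact tendsto_nhds_unique hL hR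

end Pool.Agent.Helper84.LN
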